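import Mathlib.Data.Finset.Powerset
import Mathlib.Data.Fintype.Powerset
import Mathlib.Data.Fintype.Card
import Mathlib.Data.Fintype.BigOperators
import Mathlib.Order.ConditionallyCompleteLattice.Basic
import Mathlib.Order.Lattice.Nat
import Mathlib.Algebra.Order.BigOperators.Group.Finset
import Mathlib.Algebra.Group.Nat.Even
import Mathlib.Tactic

set_option autoImplicit false

/-!
# MP_5e3dfa_co : the order of magnitude of `k_r(n)`
-/

namespace Pool.Agent.Results.MP_5e3dfa_co.OrderOfMagnitude

open Finset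

/-- `F` is a maximal intersecting family of `n/2`-element subsets of `[n]`. -/
def MaxInt (n : ℕ) (F : Finset (Finset (Fin n))) : Prop :=
  (∀ A ∈ F, A.card = n / 2) ∧ (∀ A ∈ F, ∀ B ∈ F, (A ∩ B).Nonempty) ∧
    ∀ A : Finset (Fin n), A.card = n / 2 → A ∉ F →
      ¬ ∀ B ∈ insert A F, ∀ C ∈ insert A F, (B ∩ C).Nonempty

/-- The system `M` of pairwise disjoint sets is shattered by `F`. -/
def Shattered {n k : ℕ} (F : Finset (Finset (Fin n))) (M : Fin k → Finset (Fin n)) : Prop :=
  ∀ c : Fin k → Fin n, (∀ i, c i ∈ M i) →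
    ∃ A ∈ F, A ∩ univ.biUnion M = univ.image c

/-- Every maximal intersecting family of `n/2`-element subsets of `[n]` shatters some system of `k`
pairwise disjoint `r`-element sets. -/
def Always (r n k : ℕ) : Prop :=
  ∀ F : Finset (Finset (Fin n)), MaxInt n F →
    ∃ M : Fin k → Finset (Fin n), (∀ i, (M i).card = r) ∧
      (∀ i j, i ≠ j → Disjoint (M i) (M j)) ∧ Shattered F M

/-- `k_r(n)` -/
noncomputable def kr (r n : ℕ) : ℕ := sSup {k : ℕ | Always r n k}

/-- for `n = 2 m`, `m ≥ 1`: in a maximal family exactly one of `A`, `Aᶜ` is a member -/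
lemma compl_mem {m : ℕ} (hm : 1 ≤ m) {F : Finset (Finset (Fin (2 * m)))}
    (hF : MaxInt (2 * m) F) {A : Finset (Fin (2 * m))} (hA : A.card = m) (hAF : A ∉ F) :
    Aᶜ ∈ F := by
  obtain ⟨h1, h2, h3⟩ := hF
  have hm2 : 2 * m / 2 = m := by omega
  rw [hm2] at h1 h3
  have hne : A.Nonempty := card_pos.1 (by omega)
  have h4 := h3 A hA hAF
  push Not at h4
  obtain ⟨B, hB, C, hC, hBC⟩ := h4
  have key : ∀ D ∈ F, A ∩ D = ∅ → Aᶜ ∈ F := by
    intro D hD hAD
    have h5 : D ⊆ Aᶜ := by
      intro x hx
      rw [mem_compl]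
      intro hxA
      have : x ∈ A ∩ D := mem_inter.2 ⟨hxA, hx⟩
      rw [hAD] at this
      exact notMem_empty x this
    have h6 : D = Aᶜ := by
      apply eq_of_subset_of_card_le h5
      rw [card_compl, Fintype.card_fin, hA, h1 D hD]
      omega
    rw [← h6]
    exact hD
  rw [mem_insert] at hB hC
  rcases hB with rfl | hB <;> rcases hC with rfl | hC
  · rw [inter_self] at hBC
    exact absurd hBC hne.ne_empty
  · exact key C hC hBC
  · exact key B hB (by rw [inter_comm]; exact hBC)
  · exact absurd hBC (h2 B hB C hC).ne_empty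

/-- The lower bound. -/
lemma lower {m r k : ℕ} (hr : 1 ≤ r) (hm : 1 ≤ m) (hk : r * k ≤ m) : Always r (2 * m) k := by
  classical
  intro F hF
  have hm2 : 2 * m / 2 = m := by omega
  -- two systems with disjoint supports
  have hcard : Fintype.card ((Fin k × Fin r) ⊕ (Fin k × Fin r)) ≤ Fintype.card (Fin (2 * m)) := by
    simp only [Fintype.card_sum, Fintype.card_prod, Fintype.card_fin]
    have : k * r = r * k := mul_comm _ _
    omega
  obtain ⟨e⟩ := Function.Embedding.nonempty_of_card_le hcard
  let M : Fin k → Finset (Fin (2 * m)) := fun i => univ.image (fun j => e (Sum.inl (i, j)))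
  let M' : Fin k → Finset (Fin (2 * m)) := fun i => univ.image (fun j => e (Sum.inr (i, j)))
  have hM : ∀ i x, x ∈ M i ↔ ∃ j, e (Sum.inl (i, j)) = x := by
    intro i x
    simp [M]
  have hM' : ∀ i x, x ∈ M' i ↔ ∃ j, e (Sum.inr (i, j)) = x := by
    intro i x
    simp [M']
  have hMc : ∀ i, (M i).card = r := by
    intro i
    rw [card_image_of_injective, card_univ, Fintype.card_fin]
    intro x y h
    have := e.injective h
    simpa using this
  have hMc' : ∀ i, (M' i).card = r := by
    intro i
    rw [card_image_of_injective, card_univ, Fintype.card_fin]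
    intro x y h
    have := e.injective h
    simpa using this
  have hMd : ∀ i j, i ≠ j → Disjoint (M i) (M j) := by
    intro i j hij
    rw [disjoint_left]
    intro x hx hx'
    obtain ⟨a, rfl⟩ := (hM i x).1 hx
    obtain ⟨b, hb⟩ := (hM j _).1 hx'
    have := e.injective hb
    simp only [Sum.inl.injEq, Prod.mk.injEq] at this
    exact hij this.1.symm
  have hMd' : ∀ i j, i ≠ j → Disjoint (M' i) (M' j) := by
    intro i j hij
    rw [disjoint_left]
    intro x hx hx'
    obtain ⟨a, rfl⟩ := (hM' i x).1 hx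
    obtain ⟨b, hb⟩ := (hM' j _).1 hx'
    have := e.injective hb
    simp only [Sum.inr.injEq, Prod.mk.injEq] at this
    exact hij this.1.symm
  by_contra hcon
  push Not at hcon
  have h1 := hcon M hMc hMd
  have h2 := hcon M' hMc' hMd'
  unfold Shattered at h1 h2
  push Not at h1 h2
  obtain ⟨c, hc, hcF⟩ := h1
  obtain ⟨c', hc', hcF'⟩ := h2
  have hdisj : Disjoint (univ.biUnion M) (univ.biUnion M') := by
    rw [disjoint_left]
    intro x hx hx'
    rw [mem_biUnion] at hx hx'
    obtain ⟨i, -, hi⟩ := hx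
    obtain ⟨j, -, hj⟩ := hx'
    obtain ⟨a, rfl⟩ := (hM i x).1 hi
    obtain ⟨b, hb⟩ := (hM' j _).1 hj
    have := e.injective hb
    simp at this
  have hUc : (univ.biUnion M).card = k * r := by
    rw [card_biUnion (fun i _ j _ hij => hMd i j hij)]
    simp [hMc]
  have hUc' : (univ.biUnion M').card = k * r := by
    rw [card_biUnion (fun i _ j _ hij => hMd' i j hij)]
    simp [hMc']
  have hcinj : Function.Injective c := by
    intro i j hij
    by_contra hne
    exact (disjoint_left.1 (hMd i j hne)) (hc i) (hij ▸ hc j)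
  have hcinj' : Function.Injective c' := by
    intro i j hij
    by_contra hne
    exact (disjoint_left.1 (hMd' i j hne)) (hc' i) (hij ▸ hc' j)
  have hcU : univ.image c ⊆ univ.biUnion M := by
    intro x hx
    obtain ⟨i, -, rfl⟩ := mem_image.1 hx
    exact mem_biUnion.2 ⟨i, mem_univ _, hc i⟩
  have hcU' : univ.image c' ⊆ univ.biUnion M' := by
    intro x hx
    obtain ⟨i, -, rfl⟩ := mem_image.1 hx
    exact mem_biUnion.2 ⟨i, mem_univ _, hc' i⟩
  have hcc : (univ.image c).card = k := by
    rw [card_image_of_injective _ hcinj, card_univ, Fintype.card_fin]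
  have hcc' : (univ.image c').card = k := by
    rw [card_image_of_injective _ hcinj', card_univ, Fintype.card_fin]
  -- the part of `A` in the supports
  set U := univ.biUnion M with hU
  set U' := univ.biUnion M' with hU'
  let P : Finset (Fin (2 * m)) := univ.image c ∪ (U' \ univ.image c')
  have hPc : P.card = k * r := by
    have hd : Disjoint (univ.image c) (U' \ univ.image c') := by
      refine disjoint_of_subset_left hcU (disjoint_of_subset_right sdiff_subset hdisj)
    have h3 : (U' \ univ.image c').card = k * r - k := by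
      rw [card_sdiff_of_subset hcU', hUc', hcc']
    have h4 : k ≤ k * r := Nat.le_mul_of_pos_right k (by omega)
    rw [show P = univ.image c ∪ (U' \ univ.image c') from rfl, card_union_of_disjoint hd, hcc, h3]
    omega
  have hkr : k * r = r * k := mul_comm _ _
  have hPW : P ⊆ P ∪ (U ∪ U')ᶜ := subset_union_left
  have hPU : P ⊆ U ∪ U' := by
    refine union_subset (hcU.trans subset_union_left) (sdiff_subset.trans subset_union_right)
  have hWc : m ≤ (P ∪ (U ∪ U')ᶜ).card := by
    have hd : Disjoint P (U ∪ U')ᶜ := disjoint_of_subset_left hPU disjoint_compl_right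
    rw [card_union_of_disjoint hd, hPc, card_compl, card_union_of_disjoint hdisj, hUc, hUc',
      Fintype.card_fin]
    omega
  obtain ⟨A, hPA, hAW, hAc⟩ := exists_subsuperset_card_eq hPW (by rw [hPc]; omega) hWc
  have hAU : A ∩ U = univ.image c := by
    ext x
    rw [mem_inter]
    constructor
    · rintro ⟨hxA, hxU⟩
      rcases mem_union.1 (hAW hxA) with h | h
      · rcases mem_union.1 h with h | h
        · exact h
        · exact absurd (mem_sdiff.1 h).1 (disjoint_left.1 hdisj hxU)
      · exact absurd (mem_union_left _ hxU) (mem_compl.1 h)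
    · intro hx
      exact ⟨hPA (mem_union_left _ hx), hcU hx⟩
  have hAU' : Aᶜ ∩ U' = univ.image c' := by
    ext x
    rw [mem_inter, mem_compl]
    constructor
    · rintro ⟨hxA, hxU⟩
      by_contra hx
      exact hxA (hPA (mem_union_right _ (mem_sdiff.2 ⟨hxU, hx⟩)))
    · intro hx
      refine ⟨fun hxA => ?_, hcU' hx⟩
      rcases mem_union.1 (hAW hxA) with h | h
      · rcases mem_union.1 h with h | h
        · exact (disjoint_left.1 hdisj (hcU h)) (hcU' hx)
        · exact (mem_sdiff.1 h).2 hx
      · exact (mem_compl.1 h) (mem_union_right _ (hcU' hx))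
  have hAF : A ∉ F := fun h => hcF A h hAU
  have hAF' : Aᶜ ∈ F := compl_mem hm hF hAc hAF
  exact hcF' _ hAF' hAU'

/-- The family of all `m`-element sets avoiding the point `x`. -/
lemma avoid_max {m : ℕ} (hm : 1 ≤ m) (x : Fin (2 * m)) :
    MaxInt (2 * m) ((univ : Finset (Finset (Fin (2 * m)))).filter
      (fun A => A.card = m ∧ x ∉ A)) := by
  classical
  have hm2 : 2 * m / 2 = m := by omega
  have hpair : ∀ A B : Finset (Fin (2 * m)), A.card = m → B.card = m → A ∩ B = ∅ →
      B = Aᶜ := by
    intro A B hA hB hAB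
    have h5 : B ⊆ Aᶜ := by
      intro y hy
      rw [mem_compl]
      intro hyA
      have : y ∈ A ∩ B := mem_inter.2 ⟨hyA, hy⟩
      rw [hAB] at this
      exact notMem_empty y this
    apply eq_of_subset_of_card_le h5
    rw [card_compl, Fintype.card_fin, hA, hB]
    omega
  refine ⟨?_, ?_, ?_⟩
  · intro A hA
    rw [hm2]
    exact (mem_filter.1 hA).2.1
  · intro A hA B hB
    by_contra h
    rw [not_nonempty_iff_eq_empty] at h
    have hA2 := (mem_filter.1 hA).2
    have hB2 := (mem_filter.1 hB).2
    have := hpair A B hA2.1 hB2.1 h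
    apply hB2.2
    rw [this, mem_compl]
    exact hA2.2
  · intro A hA hAF h
    rw [hm2] at hA
    have hxA : x ∈ A := by
      by_contra hx
      exact hAF (mem_filter.2 ⟨mem_univ _, hA, hx⟩)
    have hAc : Aᶜ ∈ (univ : Finset (Finset (Fin (2 * m)))).filter
        (fun A => A.card = m ∧ x ∉ A) := by
      refine mem_filter.2 ⟨mem_univ _, ?_, ?_⟩
      · rw [card_compl, Fintype.card_fin, hA]
        omega
      · rw [mem_compl]
        exact fun h => h hxA
    have := h A (mem_insert_self _ _) _ (mem_insert_of_mem hAc)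
    rw [inter_compl] at this
    exact not_nonempty_empty this

/-- The upper bound. -/
lemma upper {m r k : ℕ} (hr : 3 ≤ r) (hm : 1 ≤ m) (h : Always r (2 * m) k) :
    (r - 1) * k < m := by
  classical
  have hm2 : 2 * m / 2 = m := by omega
  let x : Fin (2 * m) := ⟨0, by omega⟩
  obtain ⟨M, hMc, hMd, hS⟩ := h _ (avoid_max hm x)
  have hUc : (univ.biUnion M).card = k * r := by
    rw [card_biUnion (fun i _ j _ hij => hMd i j hij)]
    simp [hMc]
  -- the point `x` is not in the support
  have hxU : x ∉ univ.biUnion M := by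
    intro hx
    obtain ⟨i, -, hi⟩ := mem_biUnion.1 hx
    have hne : ∀ j, ∃ y, y ∈ M j := fun j => card_pos.1 (by rw [hMc j]; omega)
    choose y hy using hne
    obtain ⟨A, hA, hAc⟩ := hS (Function.update y i x) (by
      intro j
      by_cases hji : j = i
      · subst hji
        rw [Function.update_self]
        exact hi
      · rw [Function.update_of_ne hji]
        exact hy j)
    have h1 : x ∈ univ.image (Function.update y i x) :=
      mem_image.2 ⟨i, mem_univ _, by rw [Function.update_self]⟩
    rw [← hAc, mem_inter] at h1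
    exact (mem_filter.1 hA).2.2 h1.1
  have hne : ∀ j, ∃ y, y ∈ M j := fun j => card_pos.1 (by rw [hMc j]; omega)
  choose y hy using hne
  obtain ⟨A, hA, hAc⟩ := hS y hy
  have hA2 := (mem_filter.1 hA).2
  have h1 : A ⊆ univ.image y ∪ ((univ.biUnion M)ᶜ).erase x := by
    intro z hz
    by_cases hzU : z ∈ univ.biUnion M
    · apply mem_union_left
      rw [← hAc]
      exact mem_inter.2 ⟨hz, hzU⟩
    · apply mem_union_right
      refine mem_erase.2 ⟨?_, mem_compl.2 hzU⟩
      rintro rfl
      exact hA2.2 hz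
  have h2 := card_le_card h1
  have h3 := card_union_le (univ.image y) (((univ.biUnion M)ᶜ).erase x)
  have h4 : (univ.image y).card ≤ k := by
    refine card_image_le.trans ?_
    rw [card_univ, Fintype.card_fin]
  have h5 : (((univ.biUnion M)ᶜ).erase x).card = 2 * m - k * r - 1 := by
    rw [card_erase_of_mem (mem_compl.2 hxU), card_compl, Fintype.card_fin, hUc]
  have h6 : k * r ≤ 2 * m := by
    rw [← hUc]
    refine (card_le_univ _).trans ?_
    rw [Fintype.card_fin]
  have h7 : k * r < 2 * m := by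
    have : (univ.biUnion M).card < (univ : Finset (Fin (2 * m))).card := by
      apply card_lt_card
      refine ⟨subset_univ _, fun h => hxU (h (mem_univ x))⟩
    rw [hUc, card_univ, Fintype.card_fin] at this
    exact this
  rw [hA2.1] at h2
  obtain ⟨s, rfl⟩ : ∃ s, r = s + 1 := ⟨r - 1, by omega⟩
  rw [Nat.add_sub_cancel]
  have h8 : k * (s + 1) = s * k + k := by ring
  rw [h8] at h5 h6 h7
  omega

theorem result : ∀ n r : ℕ, Even n → 4 ≤ n → 3 ≤ r →
    IsGreatest {k : ℕ | Always r n k} (kr r n) ∧
    n / (2 * r) ≤ kr r n ∧ 2 * (r - 1) * kr r n < n ∧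
    (n < 2 * r → kr r n = 0) ∧
    (2 * r ≤ n → n < 4 * r * kr r n ∧ 4 * r * kr r n < 3 * n) := by
  intro n r hn h4 hr
  suffices hs : IsGreatest {k : ℕ | Always r n k} (kr r n) ∧
      n / (2 * r) ≤ kr r n ∧ 2 * (r - 1) * kr r n < n by
    obtain ⟨h1, h2, h3⟩ := hs
    obtain ⟨m, hm⟩ := hn
    obtain ⟨s, rfl⟩ : ∃ s, r = s + 1 := ⟨r - 1, by omega⟩
    rw [Nat.add_sub_cancel] at h3
    refine ⟨h1, h2, by rwa [Nat.add_sub_cancel], ?_, ?_⟩
    · intro h
      by_contra hne
      have h5 : 2 * s * 1 ≤ 2 * s * kr (s + 1) n := Nat.mul_le_mul_left _ (by omega)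
      omega
    · intro h
      have h5 : 1 ≤ n / (2 * (s + 1)) := (Nat.one_le_div_iff (by omega)).2 h
      have h6 : n < 2 * (s + 1) * (n / (2 * (s + 1)) + 1) := Nat.lt_mul_div_succ n (by omega)
      have h7 : 2 * (s + 1) * (n / (2 * (s + 1)) + 1) ≤ 2 * (s + 1) * (2 * kr (s + 1) n) :=
        Nat.mul_le_mul_left _ (by omega)
      have h8 : 4 * (s + 1) * kr (s + 1) n = 2 * (s + 1) * (2 * kr (s + 1) n) := by ring
      have h9 : 4 * (s + 1) * kr (s + 1) n = 2 * (2 * s * kr (s + 1) n) + 4 * kr (s + 1) n := by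
        ring
      have h10 : 2 * 2 * kr (s + 1) n ≤ 2 * s * kr (s + 1) n :=
        Nat.mul_le_mul_right _ (by omega)
      exact ⟨by omega, by omega⟩
  obtain ⟨m, rfl⟩ : ∃ m, n = 2 * m := by
    obtain ⟨m, hm⟩ := hn
    exact ⟨m, by omega⟩
  have hm : 1 ≤ m := by omega
  have hbdd : BddAbove {k : ℕ | Always r (2 * m) k} := by
    refine ⟨m, ?_⟩
    intro k hk
    have h1 := upper hr hm hk
    have h2 : 1 * k ≤ (r - 1) * k := Nat.mul_le_mul_right k (by omega)
    omega
  have hlow : Always r (2 * m) (2 * m / (2 * r)) := by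
    apply lower (by omega) hm
    rw [Nat.mul_div_mul_left _ _ (by norm_num : 0 < 2)]
    exact Nat.mul_div_le m r
  have hmem : Always r (2 * m) (kr r (2 * m)) := Nat.sSup_mem ⟨_, hlow⟩ hbdd
  refine ⟨⟨hmem, fun k hk => le_csSup hbdd hk⟩, le_csSup hbdd hlow, ?_⟩
  have h1 := upper hr hm hmem
  have h2 : 2 * (r - 1) * kr r (2 * m) = 2 * ((r - 1) * kr r (2 * m)) := by ring
  rw [h2]
  omega

end Pool.Agent.Results.MP_5e3dfa_co.OrderOfMagnitude
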